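import Pool.Agent.helper71.TFM.Def
import Pool.Agent.helper46.TD.SpecZ
import Pool.Agent.helper85.AQ.Defs
import Pool.Agent.helper91.TC.FB0

/-!
# Project tfm (MP_3703a7_ag, theorem A+): the conditions for the data `dtF D E`
-/

set_option autoImplicit false

namespace Pool.Agent.TFM

open Polynomial Pool.Agent.TC Pool.Agent.TN Pool.Agent.GJ Pool.Agent.TD
open Pool.Agent.FJ (VT Om chiO Jac Tup)
open Pool.Agent.AQ (PF IsP)
open Pool.Agent.TF (Fer)

noncomputable section

/-- the data with the Fermat curves in the sense of `TC/Base.lean` -/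
@[reducible] def cfgF {l : ℕ} (D : Cvs l) (E : Fer) : Cfg l where
  k := D.k
  n := D.n
  μ := D.μ
  a := D.a
  e := D.e
  r := E.r
  m := E.m
  npos := D.npos
  inj := D.inj
  pos := D.pos
  lt := D.lt
  inf := D.inf
  mpos := E.pos

theorem Br_ind {l : ℕ} (D : Cvs l) (E : Fer) (h : D.Indep) : (dtF D E).Ind :=
  (FB0 l (cfgF D E)).1 h

theorem Br_sep {l : ℕ} (D : Cvs l) (E : Fer) (h : D.Sep) : (dtF D E).Sep :=
  (FB0 l (cfgF D E)).2 h

/-- the polynomial `x^(n+1) + ∑_k f_k x^k` -/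
def Br_pol {n : ℕ} (f : Fin (n + 1) → ℤ) : ℤ[X] := X ^ (n + 1) + ∑ k, C (f k) * X ^ (k : ℕ)

theorem Br_deg {n : ℕ} (f : Fin (n + 1) → ℤ) : (∑ k, C (f k) * X ^ (k : ℕ) : ℤ[X]).degree < ((n + 1 : ℕ) : WithBot ℕ) :=
  degree_sum_fin_lt f

theorem Br_monic {n : ℕ} (f : Fin (n + 1) → ℤ) : (Br_pol f).Monic := by
  unfold Br_pol
  exact monic_X_pow_add (by exact_mod_cast Br_deg f)

theorem Br_natDegree {n : ℕ} (f : Fin (n + 1) → ℤ) : (Br_pol f).natDegree = n + 1 := by
  unfold Br_pol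
  rw [natDegree_add_eq_left_of_degree_lt, natDegree_X_pow]
  rw [degree_X_pow]
  exact_mod_cast Br_deg f

theorem Br_coeff {n : ℕ} (f : Fin (n + 1) → ℤ) (j : Fin (n + 1)) : (Br_pol f).coeff j = f j := by
  unfold Br_pol
  rw [coeff_add, coeff_X_pow, if_neg (by have := j.2; omega), zero_add, finset_sum_coeff, Finset.sum_eq_single j]
  · rw [coeff_C_mul, coeff_X_pow, if_pos rfl, mul_one]
  · intro k _ hk
    rw [coeff_C_mul, coeff_X_pow, if_neg (fun h => hk (Fin.ext h.symm)), mul_zero]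
  · intro h
    exact absurd (Finset.mem_univ _) h

theorem Br_eis {n p : ℕ} (hp : p.Prime) (f : Fin (n + 1) → ℤ) (h : ∀ k, (p : ℤ) ∣ f k) (h0 : ¬ (p : ℤ) ^ 2 ∣ f 0) :
    (Br_pol f).IsEisensteinAt (Ideal.span {(p : ℤ)}) where
  leading := by
    rw [(Br_monic f).leadingCoeff, Ideal.mem_span_singleton]
    intro h1
    have h2 := Int.natAbs_dvd_natAbs.2 h1
    simp only [Int.natAbs_natCast, Int.natAbs_one, Nat.dvd_one] at h2
    exact hp.one_lt.ne' h2
  mem := by
    intro k hk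
    rw [Br_natDegree] at hk
    rw [Br_coeff f ⟨k, hk⟩, Ideal.mem_span_singleton]
    exact h _
  notMem := by
    have h1 : (Br_pol f).coeff 0 = f 0 := Br_coeff f 0
    rw [h1, Ideal.span_singleton_pow, Ideal.mem_span_singleton]
    exact h0

theorem Br_eval {n : ℕ} (f : Fin (n + 1) → ℤ) (x : Om) : (Br_pol f).eval₂ (Int.castRingHom Om) x =
    x ^ (n + 1) + ∑ k, (f k : Om) * x ^ (k : ℕ) := by
  unfold Br_pol
  rw [eval₂_add, eval₂_X_pow, eval₂_finset_sum]
  congr 1
  refine Finset.sum_congr rfl fun k _ => ?_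
  rw [eval₂_mul, eval₂_C, eval₂_X_pow]
  rfl

theorem Br_prod {n : ℕ} (f : Fin (n + 1) → ℤ) (a : Fin (n + 1) → Om) (ha : Function.Injective a) (h : Rts f a) :
    (Br_pol f).map (Int.castRingHom Om) = ∏ j, (X - C (a j)) := by
  classical
  have hm : ((Br_pol f).map (Int.castRingHom Om)).Monic := (Br_monic f).map _
  have hd : ((Br_pol f).map (Int.castRingHom Om)).natDegree = n + 1 := by
    rw [(Br_monic f).natDegree_map, Br_natDegree]
  have h0 : (Br_pol f).map (Int.castRingHom Om) ≠ 0 := hm.ne_zero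
  have hr : ∀ j, a j ∈ ((Br_pol f).map (Int.castRingHom Om)).roots := by
    intro j
    rw [mem_roots h0, IsRoot.def, eval_map, Br_eval]
    exact h j
  have h1 : Finset.univ.val.map a ≤ ((Br_pol f).map (Int.castRingHom Om)).roots := by
    rw [Multiset.le_iff_subset]
    · intro x hx
      obtain ⟨j, _, rfl⟩ := Multiset.mem_map.1 hx
      exact hr j
    · exact Multiset.Nodup.map ha Finset.univ.nodup
  have h2 : ((Br_pol f).map (Int.castRingHom Om)).roots = Finset.univ.val.map a := by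
    symm
    refine Multiset.eq_of_le_of_card_le h1 ?_
    rw [Multiset.card_map, Finset.card_val, Finset.card_univ, Fintype.card_fin, ← hd]
    exact card_roots' _
  have h3 := (IsAlgClosed.splits ((Br_pol f).map (Int.castRingHom Om))).eq_prod_roots_of_monic hm
  rw [h3, h2, Multiset.map_map]
  rfl

variable {l : ℕ} [Fact l.Prime]

theorem Br_perm {n : ℕ} {μ : Fin (n + 1) → ℕ} {a : Fin (n + 1) → Om} (ha : Function.Injective a) (σ : Om ≃+* Om)
    (h : ∀ j, ∃ j', σ (a j) = a j') (hw : ∀ j j', μ j = μ j') : ∃ π, IsP σ μ a a π := by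
  choose p hp using h
  have hi : Function.Injective p := by
    intro j j' hj
    apply ha
    apply σ.injective
    rw [hp, hp, hj]
  exact ⟨Equiv.ofBijective p (Finite.injective_iff_bijective.1 hi), hp, fun j => hw _ _⟩

/-- every automorphism permutes the branch points of an Eisenstein curve -/
theorem Br_eisP (D : Cvs l) (i : Fin D.k) (p : ℕ) (h : Eis D i p) (σ : Om ≃+* Om) :
    ∃ π, IsP σ (D.μ i) (D.a i) (D.a i) π := by
  obtain ⟨f, c, _, _, hf⟩ := h.pol
  refine Br_perm (D.inj i) σ (fun j => ?_) h.wt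
  have hinj : Function.Injective fun j => D.a i j - (c : Om) := fun j j' h => D.inj i (sub_left_injective h)
  have hP := Br_prod f _ hinj hf
  have h1 : ∏ j', (σ (D.a i j) - (c : Om) - (D.a i j' - (c : Om))) = 0 := by
    have h2 : ((Br_pol f).map (Int.castRingHom Om)).eval (σ (D.a i j) - (c : Om)) = 0 := by
      rw [eval_map, Br_eval]
      have h3 := congrArg σ (hf j)
      simp only [map_add, map_sum, map_mul, map_pow, map_sub, map_intCast, map_zero] at h3
      exact h3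
    rw [hP, eval_prod] at h2
    simpa only [eval_sub, eval_X, eval_C] using h2
  obtain ⟨j', _, hj'⟩ := Finset.prod_eq_zero_iff.1 h1
  refine ⟨j', ?_⟩
  have h4 : σ (D.a i j) - D.a i j' = 0 := by
    rw [← hj']
    ring
  exact sub_eq_zero.1 h4

theorem Br_threeP (D : Cvs l) (i : Fin D.k) (h : Three D i) (σ : Om ≃+* Om) :
    ∃ π, IsP σ (D.μ i) (D.a i) (D.a i) π := by
  refine ⟨1, fun j => ?_, fun j => rfl⟩
  obtain ⟨x, hx⟩ := h.2 j
  show σ (D.a i j) = D.a i j
  rw [hx]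
  exact map_ratCast σ x

/-- all curves are defined over `ℚ` -/
theorem Br_allP (D : Cvs l) (E : Fer) (h : ∀ i, Three D i ∨ ∃ p, Eis D i p) (σ : Om ≃+* Om)
    (hσ : ∀ x : Om, x ^ l = 1 → σ x = x) : PF (dtF D E) σ := by
  refine ⟨hσ, fun i => ?_⟩
  rcases h i with h | ⟨p, h⟩
  · exact Br_threeP D i h σ
  · exact Br_eisP D i p h σ

theorem Br_prim (D : Cvs l) (i : Fin D.k) (p : ℕ) (hl : l ≠ 2) (h : Eis D i p) :
    ∀ x y : ZMod (D.n i + 1), x ≠ 0 → y ≠ 0 → ∃ k : ℕ, y = (p : ZMod (D.n i + 1)) ^ k * x := by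
  haveI : Fact (D.n i + 1).Prime := ⟨h.deg⟩
  intro x y hx hy
  obtain ⟨k, hk⟩ := h.prim (y * x⁻¹) (mul_ne_zero hy (inv_ne_zero hx))
  exact ⟨k, by rw [hk, mul_assoc, inv_mul_cancel₀ hx, mul_one]⟩

end

end Pool.Agent.TFM
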