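import Pool.Agent.helper46.TE.DefA

/-!
# The conditions on the curves `y^l = f_i(x)` for the Tate conjecture with coefficients `ℚ_q` for all prime numbers `q`: definitions

Continuation of `Pool/Agent/helper88/TN/Def.lean` (curves `Cvs`) and `Pool/Agent/helper46/TE/DefA.lean` (`TateAll`).
-/

namespace Pool.Agent.TFM

open Pool.Agent.TC Pool.Agent.TN

/-- the `a_j`, `j ≤ n`, are roots of the polynomial `x^(n+1) + ∑_k f_k x^k` with integral coefficients -/
def Rts {n : ℕ} (f : Fin (n + 1) → ℤ) (a : Fin (n + 1) → Qb) : Prop :=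
  ∀ j, a j ^ (n + 1) + ∑ k, (f k : Qb) * a j ^ (k : ℕ) = 0

/-- The number `m` of the branch points `a_ij` of the curve `C_i` is prime, their weights `μ_ij` are equal, and up to a translation by an integer `c` the branch points are the roots of a
monic integral polynomial of degree `m` which is an Eisenstein polynomial at the prime number `p`; `p = 1` modulo `l`, and `p` is a primitive root modulo `m`. -/
structure Eis {l : ℕ} (D : Cvs l) (i : Fin D.k) (p : ℕ) : Prop where
  prime : p.Prime
  one : l ∣ p - 1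
  deg : (D.n i + 1).Prime
  prim : ∀ x : ZMod (D.n i + 1), x ≠ 0 → ∃ k : ℕ, (p : ZMod (D.n i + 1)) ^ k = x
  wt : ∀ j j', D.μ i j = D.μ i j'
  pol : ∃ (f : Fin (D.n i + 1) → ℤ) (c : ℤ), (∀ k, (p : ℤ) ∣ f k) ∧ ¬ (p : ℤ) ^ 2 ∣ f 0 ∧
    Rts f fun j => D.a i j - (c : Qb)

/-- the curve `C_i` has two rational branch points `a_i0`, `a_i1` and is branched at infinity (its Jacobian has complex multiplication) -/
def Three {l : ℕ} (D : Cvs l) (i : Fin D.k) : Prop := D.n i = 1 ∧ ∀ j, ∃ x : ℚ, D.a i j = (x : Qb)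

/-- the degrees `m_i = n_i + 1` are odd prime numbers different from `l` -/
def Deg (l : ℕ) {k : ℕ} (n : Fin k → ℕ) : Prop := ∀ i, (n i + 1).Prime ∧ 2 ≤ n i ∧ n i + 1 ≠ l

/-- the curves `C_i : y^l = ∏_j (x - a_ij)` (all weights are `1`), with exponents `e_i` -/
def sup (l : ℕ) [Fact l.Prime] {k : ℕ} (n : Fin k → ℕ) (h : Deg l n) (a : ∀ i, Fin (n i + 1) → Qb)
    (ha : ∀ i, Function.Injective (a i)) (e : Fin k → ℕ) : Cvs l where
  k := k
  n := n
  μ := fun _ _ => 1
  a := a
  e := e
  npos := fun i => by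
    have := (h i).2.1
    omega
  inj := ha
  pos := fun _ _ => Nat.one_pos
  lt := fun _ _ => (Fact.out : l.Prime).one_lt
  inf := fun i => by
    rw [Finset.sum_const, Finset.card_univ, Fintype.card_fin, smul_eq_mul, mul_one]
    intro hd
    rcases (Nat.dvd_prime (h i).1).1 hd with h1 | h1
    · exact (Fact.out : l.Prime).one_lt.ne' h1
    · exact (h i).2.2 h1.symm

end Pool.Agent.TFM
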