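import Pool.Agent.helper46.TD.AllU

/-!
# Project tfm (MP_3703a7_ag, theorem A+): the case `q = l`: Tate classes are killed by `∏ su(V_l(J_i))`, with the Fermat part
-/

set_option autoImplicit false

namespace Pool.Agent.TFM

open Pool.Agent.GJ Pool.Agent.TD
open Pool.Agent.FJ (VT Om chiO Jac Tup)
open Pool.Agent.HC Pool.Agent.HC.SJ Pool.Agent.SJ
open scoped TensorProduct

noncomputable section

/-- the comparison isomorphisms in the sense of `GJ.Cmp` -/
def QL_cmp {l : ℕ} [Fact l.Prime] {D : Dat l} {ι : Om →+* ℂ} (C : CmpF D l ι) : GJ.Cmp D ι where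
  L := C.L
  jac := C.jac
  stA := C.stA
  cA := C.cA
  zA := C.zA
  th := C.th
  cl := C.cl
  tate := C.tate
  LB := C.LB
  latB := C.latB
  stB := C.stB
  cB := C.cB
  zB := C.zB

/-- THE CASE `q = l` -/
theorem QL (l : ℕ) [Fact l.Prime] (hl : l ≠ 2) (D : Dat l) (hn : ∀ i, 0 < D.n i) (hI : D.Ind) (hS : D.Sep)
    (ι : Om →+* ℂ) (C : CmpF D l ι) (S : Finset Om) (b : ℕ)
    (X : ExteriorAlgebra ℚ_[l] (TQ.V D l × VBq D l)) (hX : IsTateF D S b X) : KillF C.toCmp.tht X := by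
  have hOK := Pool.Agent.TKAll.t_CK1 l hl D hn ι (QL_cmp C)
  intro A hA
  exact Pool.Agent.TKAll.t_SUPG l hl D hI hS (QL_cmp C).tht hOK S b X ⟨hX.deg, hX.tate⟩ A
    fun i => ⟨(hA i).comm, (hA i).kill, (hA i).tr⟩

end

end Pool.Agent.TFM
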