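import Pool.Agent.helper71.TFM.Br
import Pool.Agent.helper71.TFM.QL
import Pool.Agent.helper47.AKL.SpecK
import Pool.Agent.helper46.TE.Bridge

/-!
# Project tfm (MP_3703a7_ag, theorem A+): the theorem for one prime `q`, from the rows of `Pool/Agent/helper47/AKL/SpecK.lean`
-/

set_option autoImplicit false

namespace Pool.Agent.TFM

open Polynomial Pool.Agent.TC Pool.Agent.TN Pool.Agent.GJ Pool.Agent.TD
open Pool.Agent.FJ (VT Om chiO Jac Tup)
open Pool.Agent.AQ (PF IsP)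
open Pool.Agent.AKL

noncomputable section

theorem FinA_loc (hKLO : KLO_stmt) (hKL1 : KL1_stmt) (hKOK : KOK_stmt) (l : ℕ) [Fact l.Prime] (hl : l ≠ 2)
    (D : Cvs l) (E : Pool.Agent.TF.Fer) (q : ℕ) [Fact q.Prime] (h : ∀ i, Three D i ∨ ∃ p, p ≠ q ∧ Eis D i p) (i : Fin D.k) :
    Loc (dtF D E) q i := by
  have hA : AllP (dtF D E) := fun σ hσ => Br_allP D E (fun i => (h i).imp id fun ⟨p, hp⟩ => ⟨p, hp.2⟩) σ hσ
  rcases h i with h1 | ⟨p, hpq, hp⟩
  · exact hKL1 l q hl (dtF D E) (hKOK l hl D E l) (hKOK l hl D E q) i h1.1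
  · haveI : Fact p.Prime := ⟨hp.prime⟩
    obtain ⟨f, c, hd, h0, hf⟩ := hp.pol
    have hinj : Function.Injective fun j => D.a i j - (c : Om) := fun j j' h => D.inj i (sub_left_injective h)
    exact hKLO l p hl hp.one (dtF D E) hA i hp.deg (Br_prim D i p hl hp) (fun j => hp.wt j 0) (Br_pol f) c (Br_monic f)
      (Br_eis hp.prime f hd h0) (Br_prod f _ hinj hf) q hpq.symm

/-- THE THEOREM FOR ONE PRIME `q` -/
theorem FinA (hKST : KST_stmt) (hKLO : KLO_stmt) (hKL1 : KL1_stmt) (hKOK : KOK_stmt) (l : ℕ) [Fact l.Prime] (hl : l ≠ 2)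
    (D : Cvs l) (hI : D.Indep) (hS : D.Sep) (q : ℕ) [Fact q.Prime] (h : q = l ∨ ∀ i, Three D i ∨ ∃ p, p ≠ q ∧ Eis D i p)
    (E : Pool.Agent.TE.Fer) : Pool.Agent.TE.TateAll D E q := by
  refine Pool.Agent.TE.brA D E q (Pool.Agent.TDAll.t_ZY Pool.Agent.TDAll.t_TDF l hl D (Pool.Agent.TE.old E) q
    fun ι C S b X hX => ?_)
  rcases h with h | h
  · subst h
    exact QL q hl (dtF D (Pool.Agent.TE.old E)) D.npos (Br_ind D _ hI) (Br_sep D _ hS) ι C S b X hX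
  · exact hKST l q hl (dtF D (Pool.Agent.TE.old E)) D.npos (Br_ind D _ hI) (Br_sep D _ hS)
      (fun σ hσ => Br_allP D _ (fun i => (h i).imp id fun ⟨p, hp⟩ => ⟨p, hp.2⟩) σ hσ)
      (hKOK l hl D _ l) (FinA_loc hKLO hKL1 hKOK l hl D _ q h) ι C S b X hX

end

end Pool.Agent.TFM
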