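import Pool.Agent.helper71.TFM.FinA
import Pool.Agent.helper84.TEX.XT2

/-!
# Project tfm (MP_3703a7_ag, theorem A+): all primes `q` at once
-/

set_option autoImplicit false

namespace Pool.Agent.TFM

open Polynomial Pool.Agent.TC Pool.Agent.TN Pool.Agent.AKL
open Pool.Agent.TE (Fer TateAll)

noncomputable section

theorem FinB_eis {l : ℕ} [Fact l.Prime] {k : ℕ} {n : Fin k → ℕ} (h : Deg l n) (a : ∀ i, Fin (n i + 1) → Qb)
    (ha : ∀ i, Function.Injective (a i)) (e : Fin k → ℕ) (i : Fin k) (f : Fin (n i + 1) → ℤ) (hf : Rts f (a i)) (p : ℕ)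
    (hp : TEX.EisP l (n i) f p) (hr : TEX.PrimR (n i + 1) p) : Eis (sup l n h a ha e) i p where
  prime := hp.prime
  one := hp.one
  deg := (h i).1
  prim := hr
  wt := fun _ _ => rfl
  pol := ⟨f, 0, hp.dvd, hp.ndvd, fun j => by
    have h1 := hf j
    show (a i j - ((0 : ℤ) : Qb)) ^ (n i + 1) + ∑ k, (f k : Qb) * (a i j - ((0 : ℤ) : Qb)) ^ (k : ℕ) = 0
    rw [Int.cast_zero, sub_zero]
    exact h1⟩

/-- ALL PRIMES `q` AT ONCE -/
theorem FinB (hKST : KST_stmt) (hKLO : KLO_stmt) (hKL1 : KL1_stmt) (hKOK : KOK_stmt) (hXT : TEX.XT2_stmt)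
    (l : ℕ) [Fact l.Prime] (hl : l ≠ 2) (k : ℕ) (n : Fin k → ℕ) (h : Deg l n) :
    ∃ (N : ℕ) (c : ∀ i, Fin (n i + 1) → ℤ), 0 < N ∧
      ∀ f : ∀ i, Fin (n i + 1) → ℤ, (∀ i j, (N : ℤ) ∣ f i j - c i j) →
        (∀ i, ∃ a : Fin (n i + 1) → Qb, Function.Injective a ∧ Rts (f i) a) ∧
        ∀ (a : ∀ i, Fin (n i + 1) → Qb) (ha : ∀ i, Function.Injective (a i)), (∀ i, Rts (f i) (a i)) →
          ∀ (e : Fin k → ℕ) (q : ℕ) [Fact q.Prime] (E : Fer), TateAll (sup l n h a ha e) E q := by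
  obtain ⟨N, c, p, p', hN, hpp, -, hpr, H⟩ := hXT l Fact.out k n h
  refine ⟨N, c, hN, fun f hf => ?_⟩
  obtain ⟨h1, h2, h3⟩ := H f hf
  refine ⟨h1, fun a ha hr e q _ E => ?_⟩
  have hD := h3 (sup l n h a ha e).μ a e (sup l n h a ha e).npos ha (sup l n h a ha e).pos (sup l n h a ha e).lt
    (sup l n h a ha e).inf hr
  refine FinA hKST hKLO hKL1 hKOK l hl (sup l n h a ha e) hD.1 hD.2 q (Or.inr fun i => Or.inr ?_) E
  by_cases hq : p i = q
  · exact ⟨p' i, fun h' => hpp i (hq.trans h'.symm), FinB_eis h a ha e i (f i) (hr i) (p' i) (h2 i).2 (hpr i).2⟩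
  · exact ⟨p i, hq, FinB_eis h a ha e i (f i) (hr i) (p i) (h2 i).1 (hpr i).1⟩

end

end Pool.Agent.TFM
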